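import Pool.Agent.H177Z.MP.St

/-! The fifteen dimensional representation of `SL₃(ℤ)` is irreducible away from `2` and `3`. -/

set_option autoImplicit false

namespace Pool.Agent.H101Z.MP

open Matrix Pool.Agent.H177Z.MP
open scoped MatrixGroups TensorProduct

abbrev I : Type := Fin 3 × Fin 3 × Fin 3

def fr : Fin 15 → I :=
  ![(0, 0, 1), (0, 0, 2), (0, 1, 0), (0, 1, 1), (0, 1, 2), (0, 2, 0), (0, 2, 1), (0, 2, 2), (1, 1, 0), (1, 1, 2), (1, 2, 0), (1, 2, 1), (1, 2, 2), (2, 2, 0), (2, 2, 1)]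

def J0 : Fin 3 → Fin 3 → Fin 3 → Fin 15 → ℤ :=
  ![![![![0, 0, 0, -1, 0, 0, 0, -1, 0, 0, 0, 0, 0, 0, 0],
      ![1, 0, 0, 0, 0, 0, 0, 0, 0, 0, 0, 0, 0, 0, 0],
      ![0, 1, 0, 0, 0, 0, 0, 0, 0, 0, 0, 0, 0, 0, 0]],
    ![![0, 0, 1, 0, 0, 0, 0, 0, 0, 0, 0, 0, 0, 0, 0],
      ![0, 0, 0, 1, 0, 0, 0, 0, 0, 0, 0, 0, 0, 0, 0],
      ![0, 0, 0, 0, 1, 0, 0, 0, 0, 0, 0, 0, 0, 0, 0]],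
    ![![0, 0, 0, 0, 0, 1, 0, 0, 0, 0, 0, 0, 0, 0, 0],
      ![0, 0, 0, 0, 0, 0, 1, 0, 0, 0, 0, 0, 0, 0, 0],
      ![0, 0, 0, 0, 0, 0, 0, 1, 0, 0, 0, 0, 0, 0, 0]]],
  ![![![0, 0, 1, 0, 0, 0, 0, 0, 0, 0, 0, 0, 0, 0, 0],
      ![0, 0, 0, 1, 0, 0, 0, 0, 0, 0, 0, 0, 0, 0, 0],
      ![0, 0, 0, 0, 1, 0, 0, 0, 0, 0, 0, 0, 0, 0, 0]],
    ![![0, 0, 0, 0, 0, 0, 0, 0, 1, 0, 0, 0, 0, 0, 0],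
      ![0, 0, -1, 0, 0, 0, 0, 0, 0, 0, 0, 0, -1, 0, 0],
      ![0, 0, 0, 0, 0, 0, 0, 0, 0, 1, 0, 0, 0, 0, 0]],
    ![![0, 0, 0, 0, 0, 0, 0, 0, 0, 0, 1, 0, 0, 0, 0],
      ![0, 0, 0, 0, 0, 0, 0, 0, 0, 0, 0, 1, 0, 0, 0],
      ![0, 0, 0, 0, 0, 0, 0, 0, 0, 0, 0, 0, 1, 0, 0]]],
  ![![![0, 0, 0, 0, 0, 1, 0, 0, 0, 0, 0, 0, 0, 0, 0],
      ![0, 0, 0, 0, 0, 0, 1, 0, 0, 0, 0, 0, 0, 0, 0],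
      ![0, 0, 0, 0, 0, 0, 0, 1, 0, 0, 0, 0, 0, 0, 0]],
    ![![0, 0, 0, 0, 0, 0, 0, 0, 0, 0, 1, 0, 0, 0, 0],
      ![0, 0, 0, 0, 0, 0, 0, 0, 0, 0, 0, 1, 0, 0, 0],
      ![0, 0, 0, 0, 0, 0, 0, 0, 0, 0, 0, 0, 1, 0, 0]],
    ![![0, 0, 0, 0, 0, 0, 0, 0, 0, 0, 0, 0, 0, 1, 0],
      ![0, 0, 0, 0, 0, 0, 0, 0, 0, 0, 0, 0, 0, 0, 1],
      ![0, 0, 0, 0, 0, -1, 0, 0, 0, 0, 0, -1, 0, 0, 0]]]]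

def GA : Fin 15 → Matrix (Fin 3) (Fin 3) ℤ :=
  ![!![0, -1, 0; 1, 0, 0; 0, 0, 1],
    !![0, 0, -1; 0, 1, 0; 1, 0, 0],
    !![1, 0, 0; 0, 1, 0; 0, 0, 1],
    !![0, 0, 1; 1, 0, 0; 0, 1, 0],
    !![-1, 0, 0; 0, 0, 1; 0, 1, 0],
    !![0, 0, 1; 1, 0, 0; 1, 1, 0],
    !![1, 0, 0; 0, 0, 1; 0, -1, 1],
    !![0, 1, 0; 0, 0, 1; 1, 0, 0],
    !![0, 1, 0; 0, 0, 1; 1, 0, 1],
    !![0, 0, 1; 1, 0, 0; 0, 1, 1],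
    !![0, 0, 1; 0, 1, 0; -1, 0, 1],
    !![1, 0, 0; 0, 1, 0; 1, 0, 1],
    !![0, 1, 0; 0, 0, 1; 1, -1, 0],
    !![1, 0, 0; 0, 1, 0; 1, 1, 1],
    !![0, 0, 1; 1, 0, 0; 1, 1, 1]]

def HA : Fin 15 → Matrix (Fin 3) (Fin 3) ℤ :=
  ![!![0, 1, 0; -1, 0, 0; 0, 0, 1],
    !![0, 0, 1; 0, 1, 0; -1, 0, 0],
    !![1, 0, 0; 0, 1, 0; 0, 0, 1],
    !![0, 1, 0; 0, 0, 1; 1, 0, 0],
    !![-1, 0, 0; 0, 0, 1; 0, 1, 0],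
    !![0, 1, 0; 0, -1, 1; 1, 0, 0],
    !![1, 0, 0; 0, 1, -1; 0, 1, 0],
    !![0, 0, 1; 1, 0, 0; 0, 1, 0],
    !![0, -1, 1; 1, 0, 0; 0, 1, 0],
    !![0, 1, 0; -1, 0, 1; 1, 0, 0],
    !![1, 0, -1; 0, 1, 0; 1, 0, 0],
    !![1, 0, 0; 0, 1, 0; -1, 0, 1],
    !![1, 0, 1; 1, 0, 0; 0, 1, 0],
    !![1, 0, 0; 0, 1, 0; -1, -1, 1],
    !![0, 1, 0; -1, -1, 1; 1, 0, 0]]

def NA : Fin 15 → Fin 15 → ℤ :=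
  ![![0, 0, 0, 0, 0, 0, 0, 8, 0, 0, 0, 0, 0, 0, 0],
    ![0, -8, 0, 0, 0, 0, 0, 0, 0, 0, 0, 0, 0, 0, 0],
    ![2, 1, -3, 2, 0, -1, 1, 2, 2, -2, 1, 0, -2, 1, 2],
    ![-3, 0, 2, -3, 0, 3, 0, 0, -3, 3, -1, -1, 0, 0, -3],
    ![0, 4, 0, -4, 0, 4, 0, 0, 0, 0, 0, 0, 0, 0, 0],
    ![-2, -2, 0, -2, 3, 2, 1, -1, -1, 2, -2, 0, 1, 1, -1],
    ![4, 0, 0, 0, 0, 0, 0, -4, 4, 0, 0, 0, 0, 0, 0],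
    ![1, 0, 2, 1, 0, -1, 0, 0, 1, -1, -1, -1, 0, 0, 1],
    ![0, 0, 0, 0, -8, 0, 0, 0, 0, 0, 0, 0, 0, 0, 0],
    ![0, 0, 0, 8, 0, 0, 0, 0, 0, 0, 0, 0, 0, 0, 0],
    ![0, 0, 4, 0, -4, 0, -4, 0, 0, 0, 0, 0, 0, 0, 0],
    ![6, -2, 0, 6, -9, -6, -3, 3, 3, -6, 2, 4, -3, -3, 3],
    ![2, -3, 1, 2, -8, -5, -3, 2, 2, -2, 1, 4, -2, -3, 2],
    ![0, 0, 8, 0, 0, 0, 0, 0, 0, 0, 0, 0, 0, 0, 0],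
    ![-8, 0, 0, 0, 0, 0, 0, 0, 0, 0, 0, 0, 0, 0, 0]]

def GB : Fin 15 → Matrix (Fin 3) (Fin 3) ℤ :=
  ![!![0, 0, 1; 1, 0, 0; 0, 1, 0],
    !![0, 1, 0; 0, 0, 1; 1, 0, 0],
    !![1, 0, 0; 0, 1, 0; 0, 0, 1],
    !![-1, 0, 0; 0, 0, 1; 0, 1, 0],
    !![0, -1, 0; 1, 0, 0; 0, 0, 1],
    !![0, 0, -1; 0, 1, 0; 1, 0, 0],
    !![0, 0, 1; 1, 0, 0; 1, 1, 0],
    !![1, 0, 0; 1, 1, 0; 0, 0, 1],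
    !![1, 1, 0; 0, 0, 1; 1, 0, 0],
    !![0, 1, 0; 1, 0, 1; 1, 0, 0],
    !![1, 0, 0; 0, 1, 0; 1, 0, 1],
    !![1, 0, 1; 1, 0, 0; 0, 1, 0],
    !![-1, 0, 0; 1, 0, 1; 0, 1, 0],
    !![0, 1, 0; -1, 0, 0; 1, 0, 1],
    !![1, 0, 0; 0, 1, 0; -1, 0, 1]]

def HB : Fin 15 → Matrix (Fin 3) (Fin 3) ℤ :=
  ![!![0, 1, 0; 0, 0, 1; 1, 0, 0],
    !![0, 0, 1; 1, 0, 0; 0, 1, 0],
    !![1, 0, 0; 0, 1, 0; 0, 0, 1],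
    !![-1, 0, 0; 0, 0, 1; 0, 1, 0],
    !![0, 1, 0; -1, 0, 0; 0, 0, 1],
    !![0, 0, 1; 0, 1, 0; -1, 0, 0],
    !![0, 1, 0; 0, -1, 1; 1, 0, 0],
    !![1, 0, 0; -1, 1, 0; 0, 0, 1],
    !![0, 0, 1; 1, 0, -1; 0, 1, 0],
    !![0, 0, 1; 1, 0, 0; 0, 1, -1],
    !![1, 0, 0; 0, 1, 0; -1, 0, 1],
    !![0, 1, 0; 0, 0, 1; 1, -1, 0],
    !![-1, 0, 0; 0, 0, 1; 1, 1, 0],
    !![0, -1, 0; 1, 0, 0; 0, 1, 1],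
    !![1, 0, 0; 0, 1, 0; 1, 0, 1]]

def CB : Fin 15 → Fin 15 → ℤ :=
  ![![0, 0, 0, 2, 0, 0, 0, 0, 2, 0, -2, 0, 0, 0, 0],
    ![0, 0, 0, 0, 0, 0, -2, 0, 0, 0, 0, 0, 2, 0, 2],
    ![0, 2, 0, 0, -2, 2, 0, 0, 0, 0, 0, 0, 0, 0, 0],
    ![2, 0, 2, 0, 0, 0, -2, 0, 0, 0, 0, 0, 0, 0, 0],
    ![0, 0, 0, 0, -2, 0, 0, 0, 0, 2, 0, 2, 0, 0, 0],
    ![0, 0, 0, 0, 0, 0, 0, -2, 0, 0, 2, 0, 0, -2, 0],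
    ![0, 0, 0, 0, 0, 0, 0, 0, 0, 0, 2, 0, 0, 0, 0],
    ![0, 0, 0, 0, 2, 0, 0, 0, 0, 0, 0, 0, 0, 0, 0],
    ![0, 0, 0, 0, 0, 0, 2, 0, 0, 0, 0, 0, 0, 0, 0],
    ![0, 0, 0, 0, 0, 0, 0, 0, 0, 0, 0, 1, -1, 0, 0],
    ![0, 0, 0, 0, 0, -1, 0, 1, 0, 0, 0, 0, 0, 0, 0],
    ![0, 0, 1, -1, 0, 0, 0, 0, 0, 0, 0, 0, 0, 0, 0],
    ![0, 0, -1, -1, 0, 0, 0, 0, 0, 0, 0, 0, 0, 0, 0],
    ![0, 0, 0, 0, 0, 0, 0, 0, 0, 0, 0, -1, -1, 0, 0],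
    ![0, 0, 0, 0, 0, -1, 0, -1, 0, 0, 0, 0, 0, 0, 0]]

def J (x : I) (m : Fin 15) : ℤ := J0 x.1 x.2.1 x.2.2 m

/-- The integer matrix of the action. -/
def Kz (A B : Matrix (Fin 3) (Fin 3) ℤ) (x y : I) : ℤ :=
  A x.1 y.1 * (A x.2.1 y.2.1 * B y.2.2 x.2.2)

theorem J_symm : ∀ (i j l : Fin 3) (m : Fin 15), J (i, j, l) m = J (j, i, l) m := by
  decide +kernel

theorem J_tr : ∀ (j : Fin 3) (m : Fin 15), ∑ i, J (i, j, i) m = 0 := by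
  decide +kernel

theorem J_fr : ∀ n m : Fin 15, J (fr n) m = if n = m then 1 else 0 := by
  decide +kernel

theorem fr_cover : ∀ i j l : Fin 3, (∃ n, fr n = (i, j, l)) ∨ (∃ n, fr n = (j, i, l)) ∨
    (i = j ∧ i = l) := by
  decide +kernel

theorem GA_det : ∀ i, (GA i).det = 1 := by
  intro i
  rw [Matrix.det_fin_three]
  revert i
  decide +kernel

theorem GB_det : ∀ i, (GB i).det = 1 := by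
  intro i
  rw [Matrix.det_fin_three]
  revert i
  decide +kernel

theorem GA_HA : ∀ i, GA i * HA i = 1 := by
  decide +kernel

theorem GB_HB : ∀ i, GB i * HB i = 1 := by
  decide +kernel

theorem certA : ∀ n m : Fin 15,
    ∑ i, NA n i * ∑ y, Kz (GA i) (HA i) (2, 2, 0) y * J y m = if n = m then 8 else 0 := by
  decide +kernel

theorem certB : ∀ (x : I) (m : Fin 15),
    ∑ i, CB i m * Kz (GB i) (HB i) x (0, 0, 2) = 2 * J x m := by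
  decide +kernel

def U (n : ℤ) : Matrix (Fin 3) (Fin 3) ℤ := !![1, 0, n; 0, 1, 0; 0, 0, 1]

theorem U_det (n : ℤ) : (U n).det = 1 := by
  simp [U, Matrix.det_fin_three]

theorem U_mul : U 1 * U (-1) = 1 ∧ U 2 * U (-2) = 1 ∧ U 3 * U (-3) = 1 := by
  decide +kernel

theorem certU : ∀ x y : I, Kz (U 3) (U (-3)) x y - 3 * Kz (U 2) (U (-2)) x y
    + 3 * Kz (U 1) (U (-1)) x y - (if x = y then 1 else 0)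
    = if x = (0, 0, 2) ∧ y = (2, 2, 0) then -6 else 0 := by
  decide +kernel

end Pool.Agent.H101Z.MP
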