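import Pool.Agent.H101Z.MP.Cert

/-! Irreducibility and dimension of the fifteen dimensional representation. -/

set_option autoImplicit false

namespace Pool.Agent.H101Z.MP

open Matrix Pool.Agent.H177Z.MP
open scoped MatrixGroups TensorProduct

variable {R : Type} [CommRing R]

theorem rhoZ_apply (g : SL(3, ℤ)) (t : W R) (x : I) :
    (rhoZ R g t).1 x = ∑ y, ((Kz g.1 (g⁻¹ : SL(3, ℤ)).1 x y : ℤ) : R) * t.1 y := by
  obtain ⟨i, j, l⟩ := x
  show rhoTen R (Matrix.SpecialLinearGroup.map (Int.castRingHom R) g) t.1 (i, j, l) = _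
  rw [rhoTen_apply, ← map_inv]
  simp only [Fintype.sum_prod_type, Kz]
  refine Finset.sum_congr rfl fun a _ => Finset.sum_congr rfl fun b _ =>
    Finset.sum_congr rfl fun c _ => ?_
  generalize g⁻¹ = h
  simp [Matrix.SpecialLinearGroup.map_apply_coe]

/-- an element of the special linear group -/
def sl (A : Matrix (Fin 3) (Fin 3) ℤ) (hA : A.det = 1) : SL(3, ℤ) := ⟨A, hA⟩

theorem inv_eq_of_mul (g : SL(3, ℤ)) (B : Matrix (Fin 3) (Fin 3) ℤ) (h : g.1 * B = 1) :
    (g⁻¹ : SL(3, ℤ)).1 = B := by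
  have h1 : (g⁻¹ : SL(3, ℤ)).1 * g.1 = 1 := by
    rw [← Matrix.SpecialLinearGroup.coe_mul, inv_mul_cancel, Matrix.SpecialLinearGroup.coe_one]
  rw [← mul_one (g⁻¹ : SL(3, ℤ)).1, ← h, ← mul_assoc, h1, one_mul]

theorem rhoZ_mk (A B : Matrix (Fin 3) (Fin 3) ℤ) (hA : A.det = 1) (h : A * B = 1) (t : W R)
    (x : I) : (rhoZ R (sl A hA) t).1 x = ∑ y, ((Kz A B x y : ℤ) : R) * t.1 y := by
  rw [rhoZ_apply, inv_eq_of_mul (sl A hA) B h]
  rfl

/-- coordinates -/
def co (R : Type) [CommRing R] : W R →ₗ[R] (Fin 15 → R) where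
  toFun t := fun n => t.1 (fr n)
  map_add' _ _ := rfl
  map_smul' _ _ := rfl

/-- the tensor with given coordinates -/
def inc (R : Type) [CommRing R] : (Fin 15 → R) →ₗ[R] W R where
  toFun c := ⟨fun x => ∑ m, (J x m : R) * c m, fun i j l => by simp only [J_symm i j l], fun j => by
    rw [Finset.sum_comm]
    refine Finset.sum_eq_zero fun m _ => ?_
    rw [← Finset.sum_mul, ← Int.cast_sum, J_tr, Int.cast_zero, zero_mul]⟩
  map_add' a b := by
    ext x
    simp [mul_add, Finset.sum_add_distrib]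
  map_smul' c a := by
    ext x
    simp [Finset.mul_sum, mul_left_comm]

theorem co_inc (c : Fin 15 → R) : co R (inc R c) = c := by
  funext n
  show ∑ m, (J (fr n) m : R) * c m = c n
  simp [J_fr]

theorem co_injective : Function.Injective (co R) := by
  rw [injective_iff_map_eq_zero]
  intro t ht
  have h0 : ∀ n, t.1 (fr n) = 0 := fun n => congrFun ht n
  have h1 : ∀ i j l : Fin 3, ¬ (i = j ∧ i = l) → t.1 (i, j, l) = 0 := by
    intro i j l h
    rcases fr_cover i j l with ⟨n, hn⟩ | ⟨n, hn⟩ | h'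
    · rw [← hn]; exact h0 n
    · rw [t.2.1, ← hn]; exact h0 n
    · exact absurd h' h
  ext ⟨i, j, l⟩
  show t.1 (i, j, l) = 0
  by_cases h : i = j ∧ i = l
  · obtain ⟨rfl, rfl⟩ := h
    have h2 := t.2.2 i
    rwa [Finset.sum_eq_single i (fun b _ hb => h1 b i b fun h => hb h.1) (by simp)] at h2
  · exact h1 i j l h

theorem inc_co (t : W R) : inc R (co R t) = t := co_injective (co_inc _)

theorem coord (t : W R) (x : I) : t.1 x = ∑ m, (J x m : R) * t.1 (fr m) := by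
  conv_lhs => rw [← inc_co t]
  rfl

/-- `W R` is free of rank fifteen -/
def coEquiv (R : Type) [CommRing R] : W R ≃ₗ[R] (Fin 15 → R) :=
  LinearEquiv.ofLinearMap (co R) (inc R) (LinearMap.ext co_inc) (LinearMap.ext inc_co)

theorem finrank_W (k : Type) [Field k] : Module.finrank k (W k) = 15 := by
  rw [(coEquiv k).finrank_eq]
  simp

/-- the highest weight vector -/
def vplus (R : Type) [CommRing R] : W R :=
  ⟨fun x => if x = (0, 0, 2) then 1 else 0, fun i j l => by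
    fin_cases i <;> fin_cases j <;> simp, fun j => by
    refine Finset.sum_eq_zero fun i _ => ?_
    fin_cases i <;> simp⟩

theorem cube (t : W R) : rhoZ R (sl (U 3) (U_det 3)) t - (3 : R) • rhoZ R (sl (U 2) (U_det 2)) t
    + (3 : R) • rhoZ R (sl (U 1) (U_det 1)) t - t = (-6 * t.1 (2, 2, 0)) • vplus R := by
  ext x
  have h1 := rhoZ_mk (U 1) _ (U_det 1) U_mul.1 t x
  have h2 := rhoZ_mk (U 2) _ (U_det 2) U_mul.2.1 t x
  have h3 := rhoZ_mk (U 3) _ (U_det 3) U_mul.2.2 t x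
  have h4 : t.1 x = ∑ y, (((if x = y then 1 else 0 : ℤ)) : R) * t.1 y := by simp
  have h5 : ∑ y, (((if x = (0, 0, 2) ∧ y = (2, 2, 0) then -6 else 0 : ℤ)) : R) * t.1 y
      = (-6 * t.1 (2, 2, 0)) * (if x = (0, 0, 2) then 1 else 0) := by
    by_cases hx : x = (0, 0, 2) <;> simp [hx]
  show (rhoZ R (sl (U 3) (U_det 3)) t).1 x - 3 * (rhoZ R (sl (U 2) (U_det 2)) t).1 x
    + 3 * (rhoZ R (sl (U 1) (U_det 1)) t).1 x - t.1 x
    = (-6 * t.1 (2, 2, 0)) * (if x = (0, 0, 2) then 1 else 0)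
  rw [h1, h2, h3, ← h5]
  conv_lhs => rw [h4]
  simp only [Finset.mul_sum, ← Finset.sum_sub_distrib, ← Finset.sum_add_distrib]
  refine Finset.sum_congr rfl fun y _ => ?_
  rw [← certU x y]
  push_cast
  ring

theorem exists_ne {k : Type} [Field k] (h2 : (2 : k) ≠ 0) {t : W k} (ht : t ≠ 0) :
    ∃ g, (rhoZ k g t).1 (2, 2, 0) ≠ 0 := by
  by_contra hc
  push Not at hc
  apply ht
  apply co_injective
  funext n
  show t.1 (fr n) = 0
  have h8 : (8 : k) ≠ 0 := by
    have : (8 : k) = 2 ^ 3 := by norm_num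
    rw [this]
    exact pow_ne_zero _ h2
  apply mul_left_cancel₀ h8
  have h1 : ∀ i, ∑ m, ((∑ y, Kz (GA i) (HA i) (2, 2, 0) y * J y m : ℤ) : k) * t.1 (fr m) = 0 := by
    intro i
    rw [← hc (sl (GA i) (GA_det i)), rhoZ_mk _ _ _ (GA_HA i)]
    push_cast
    simp only [Finset.sum_mul]
    rw [Finset.sum_comm]
    refine Finset.sum_congr rfl fun y _ => ?_
    rw [coord t y, Finset.mul_sum]
    simp only [mul_assoc]
  have h3 : (8 : k) * t.1 (fr n) = ∑ m, (((if n = m then 8 else 0 : ℤ)) : k) * t.1 (fr m) := by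
    simp
  have h4 : ∑ i, (NA n i : k) *
      ∑ m, ((∑ y, Kz (GA i) (HA i) (2, 2, 0) y * J y m : ℤ) : k) * t.1 (fr m) = 0 :=
    Finset.sum_eq_zero fun i _ => by rw [h1 i, mul_zero]
  rw [h3, mul_zero, ← h4]
  rw [Finset.sum_congr rfl fun i _ => Finset.mul_sum _ _ (NA n i : k), Finset.sum_comm]
  refine Finset.sum_congr rfl fun m _ => ?_
  rw [← certA n m, Int.cast_sum, Finset.sum_mul]
  refine Finset.sum_congr rfl fun i _ => ?_
  rw [Int.cast_mul, mul_assoc]

theorem rhoZ_vplus (i : Fin 15) (x : I) :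
    (rhoZ R (sl (GB i) (GB_det i)) (vplus R)).1 x = (Kz (GB i) (HB i) x (0, 0, 2) : R) := by
  rw [rhoZ_mk _ _ _ (GB_HB i)]
  simp [vplus]

theorem two_smul_eq (t : W R) : (2 : R) • t =
    ∑ i, (∑ m, (CB i m : R) * t.1 (fr m)) • rhoZ R (sl (GB i) (GB_det i)) (vplus R) := by
  ext x
  rw [Submodule.coe_sum, Finset.sum_apply]
  show 2 * t.1 x = ∑ i, (∑ m, (CB i m : R) * t.1 (fr m)) * (rhoZ R (sl (GB i) (GB_det i)) (vplus R)).1 x
  simp only [rhoZ_vplus, Finset.sum_mul]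
  rw [Finset.sum_comm, coord t x, Finset.mul_sum]
  refine Finset.sum_congr rfl fun m _ => ?_
  have h := congrArg (Int.cast : ℤ → R) (certB x m)
  push_cast at h
  rw [← mul_assoc, ← h, Finset.sum_mul]
  refine Finset.sum_congr rfl fun i _ => ?_
  ring

/-- Irreducibility under the integral group. -/
theorem eq_top_of_stable {k : Type} [Field k] (h2 : (2 : k) ≠ 0) (h3 : (3 : k) ≠ 0)
    (S : Submodule k (W k)) (hS : ∀ g, ∀ t ∈ S, rhoZ k g t ∈ S) (h0 : S ≠ ⊥) : S = ⊤ := by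
  obtain ⟨t, ht, ht0⟩ := Submodule.exists_mem_ne_zero_of_ne_bot h0
  obtain ⟨g, hg⟩ := exists_ne h2 ht0
  have h1 := hS g t ht
  have h6 : (-6 : k) * (rhoZ k g t).1 (2, 2, 0) ≠ 0 := by
    refine mul_ne_zero ?_ hg
    have : (-6 : k) = -(2 * 3) := by norm_num
    rw [this]
    exact neg_ne_zero.2 (mul_ne_zero h2 h3)
  have hv : vplus k ∈ S := by
    rw [← S.smul_mem_iff h6, ← cube]
    exact S.sub_mem (S.add_mem (S.sub_mem (hS _ _ h1) (S.smul_mem _ (hS _ _ h1)))
      (S.smul_mem _ (hS _ _ h1))) h1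
  rw [eq_top_iff]
  intro s _
  rw [← S.smul_mem_iff h2, two_smul_eq]
  exact S.sum_mem fun i _ => S.smul_mem _ (hS _ _ hv)

end Pool.Agent.H101Z.MP
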