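import Pool.Agent.H101Z.MP.Irr

/-! Highest weight, a stable lattice, and the reduction of stable lattices. -/

set_option autoImplicit false

namespace Pool.Agent.H101Z.MP

open Matrix Pool.Agent.H177Z.MP
open scoped MatrixGroups TensorProduct nonZeroDivisors

theorem vplus_ne (k : Type) [Field k] : vplus k ≠ 0 := by
  intro h
  have := congrFun (congrArg Subtype.val h) (0, 0, 2)
  simp [vplus] at this

theorem irr : (rho ℚ).IsIrreducible := by
  have : Nontrivial (Subrepresentation (rho ℚ)) := ⟨⊥, ⊤, fun h => by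
    have h1 : vplus ℚ ∈ (⊤ : Subrepresentation (rho ℚ)).toSubmodule := Submodule.mem_top
    rw [← h] at h1
    exact vplus_ne ℚ h1⟩
  refine ⟨fun S => ?_⟩
  by_cases h : S.toSubmodule = ⊥
  · exact Or.inl (Subrepresentation.toSubmodule_injective h)
  · exact Or.inr (Subrepresentation.toSubmodule_injective
      (eq_top_of_stable (by norm_num) (by norm_num) _
        (fun g t ht => S.apply_mem_toSubmodule _ ht) h))

theorem hw (b : SL(3, ℚ)) (hb : (b : Matrix (Fin 3) (Fin 3) ℚ).BlockTriangular id) :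
    rho ℚ b (vplus ℚ) =
      (∏ i, b i i ^ ((![5, 2, 0] : Fin 3 → ℤ) i - rhoWt i)) • vplus ℚ := by
  have h10 : b.1 1 0 = 0 := hb (by decide)
  have h20 : b.1 2 0 = 0 := hb (by decide)
  have h21 : b.1 2 1 = 0 := hb (by decide)
  have hp : (∏ i, b i i ^ ((![5, 2, 0] : Fin 3 → ℤ) i - rhoWt i)) = b.1 0 0 ^ 3 * b.1 1 1 := by
    rw [Fin.prod_univ_three]
    simp [rhoWt]
  rw [hp]
  ext ⟨i, j, l⟩
  show rhoTen ℚ b (vplus ℚ).1 (i, j, l) = (b.1 0 0 ^ 3 * b.1 1 1) * (vplus ℚ).1 (i, j, l)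
  have h1 : rhoTen ℚ b (vplus ℚ).1 (i, j, l) = b.1 i 0 * (b.1 j 0 * (adjugate b.1) 2 l) := by
    rw [rhoTen_apply]
    simp [vplus, Fin.sum_univ_three]
  rw [h1, adjugate_fin_three]
  fin_cases i <;> fin_cases j <;> fin_cases l <;> simp [vplus, h10, h20, h21]
  ring

/-- tensors with integer entries -/
def M0 : Submodule ℤ (W ℚ) where
  carrier := {t | ∀ x, ∃ z : ℤ, t.1 x = z}
  add_mem' := by
    intro a b ha hb x
    obtain ⟨z, hz⟩ := ha x
    obtain ⟨w, hw⟩ := hb x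
    exact ⟨z + w, by rw [Int.cast_add, ← hz, ← hw]; rfl⟩
  zero_mem' := fun _ => ⟨0, by simp⟩
  smul_mem' := by
    intro c a ha x
    obtain ⟨z, hz⟩ := ha x
    exact ⟨c * z, by rw [Int.cast_mul, ← hz]; simp⟩

theorem M0_stable : Stable M0 := by
  intro g m hm x
  choose z hz using hm
  refine ⟨∑ y, Kz g.1 (g⁻¹ : SL(3, ℤ)).1 x y * z y, ?_⟩
  rw [rhoZ_apply]
  push_cast
  simp only [hz]

theorem M0_lattice : Submodule.IsLattice ℚ M0 := by
  constructor
  · let f : (Fin 15 → ℤ) →ₗ[ℤ] W ℚ := ((inc ℚ).restrictScalars ℤ).comp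
      (LinearMap.compLeft (Algebra.linearMap ℤ ℚ) (Fin 15))
    refine Submodule.FG.of_le (Submodule.fg_range f) ?_
    intro t ht
    choose z hz using ht
    refine ⟨fun n => z (fr n), ?_⟩
    rw [← inc_co t]
    show inc ℚ _ = inc ℚ _
    congr 1
    funext n
    exact (hz (fr n)).symm
  · refine eq_top_of_stable (by norm_num) (by norm_num) _ (fun g t ht => ?_) ?_
    · have : (Submodule.span ℚ (M0 : Set (W ℚ))).map (rhoZ ℚ g) ≤ Submodule.span ℚ M0 := by
        rw [Submodule.map_span_le]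
        exact fun m hm => Submodule.subset_span (M0_stable g m hm)
      exact this ⟨t, ht, rfl⟩
    · rw [Submodule.ne_bot_iff]
      refine ⟨vplus ℚ, Submodule.subset_span fun x => ?_, vplus_ne ℚ⟩
      by_cases h : x = (0, 0, 2)
      · exact ⟨1, by simp [vplus, h]⟩
      · exact ⟨0, by simp [vplus, h]⟩

theorem thm_hw : S_hw := ⟨irr, ⟨vplus ℚ, vplus_ne ℚ, hw⟩, M0, M0_lattice, M0_stable⟩

theorem exists_scale (M : Submodule ℤ (W ℚ)) (hM : Submodule.IsLattice ℚ M) {p : ℕ}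
    (hp : p.Prime) : ∃ d : ℚ, d ≠ 0 ∧ (∀ m ∈ M, ∀ x, ∃ z : ℤ, m.1 x = z * d) ∧
      ∃ m ∈ M, ∃ x, ∃ z : ℤ, m.1 x = z * d ∧ ¬ (p : ℤ) ∣ z := by
  let e : I → (W ℚ →ₗ[ℤ] ℚ) := fun x =>
    ((LinearMap.proj x : Ten ℚ →ₗ[ℚ] ℚ).comp (W ℚ).subtype).restrictScalars ℤ
  let D : Submodule ℤ ℚ := ⨆ x, M.map (e x)
  have hD : D.FG := Submodule.fg_iSup _ fun x => hM.fg.map _
  obtain ⟨d, hd⟩ := (FractionalIdeal.isPrincipal
    (⟨D, FractionalIdeal.isFractional_of_fg hD⟩ : FractionalIdeal ℤ⁰ ℚ)).principal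
  have hd' : D = Submodule.span ℤ {d} := hd
  have h1 : ∀ m ∈ M, ∀ x, ∃ z : ℤ, m.1 x = z * d := by
    intro m hm x
    have : m.1 x ∈ D := Submodule.mem_iSup_of_mem x ⟨m, hm, rfl⟩
    rw [hd', Submodule.mem_span_singleton] at this
    obtain ⟨z, hz⟩ := this
    exact ⟨z, by rw [← hz, zsmul_eq_mul]⟩
  have h0 : d ≠ 0 := by
    rintro rfl
    have h2 : Submodule.span ℚ (M : Set (W ℚ)) ≤ ⊥ := by
      rw [Submodule.span_le]
      intro m hm
      show m = 0
      ext x
      obtain ⟨z, hz⟩ := h1 m hm x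
      simpa using hz
    rw [hM.span_eq_top] at h2
    exact vplus_ne ℚ (h2 Submodule.mem_top)
  refine ⟨d, h0, h1, ?_⟩
  by_contra hc
  push Not at hc
  have h2 : D ≤ Submodule.span ℤ {(p : ℚ) * d} := by
    refine iSup_le fun x => ?_
    rintro _ ⟨m, hm, rfl⟩
    obtain ⟨z, hz⟩ := h1 m hm x
    obtain ⟨w, rfl⟩ := hc m hm x z hz
    rw [Submodule.mem_span_singleton]
    refine ⟨w, ?_⟩
    show _ = m.1 x
    rw [hz, zsmul_eq_mul]
    push_cast
    ring
  have h3 := h2 (hd' ▸ Submodule.mem_span_singleton_self d)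
  rw [Submodule.mem_span_singleton] at h3
  obtain ⟨w, hw⟩ := h3
  rw [zsmul_eq_mul, ← mul_assoc] at hw
  have h4 : (w : ℚ) * p = 1 := mul_right_cancel₀ h0 (by rw [hw, one_mul])
  have h5 : w * p = 1 := by exact_mod_cast h4
  have h6 : (p : ℤ) ∣ 1 := ⟨w, by rw [← h5, mul_comm]⟩
  exact hp.not_dvd_one (by exact_mod_cast h6)

theorem thm_lat : S_lat := by
  intro p hp h5 k _ _ M hM hS
  obtain ⟨d, hd, h1, m0, hm0, x0, z0, hz0, hp0⟩ := exists_scale M hM hp
  choose! z hz using h1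
  have inj : ∀ {a b : ℤ}, (a : ℚ) * d = b * d → a = b := fun h => by
    exact_mod_cast mul_right_cancel₀ hd h
  have hne : ∀ n : ℕ, 0 < n → n < 5 → ((n : ℕ) : k) ≠ 0 := fun n h0 h h' => by
    have := Nat.le_of_dvd h0 ((CharP.cast_eq_zero_iff k p n).1 h')
    omega
  have h2 : (2 : k) ≠ 0 := by exact_mod_cast hne 2 (by norm_num) (by norm_num)
  have h3 : (3 : k) ≠ 0 := by exact_mod_cast hne 3 (by norm_num) (by norm_num)
  let φ0 : M →+ W k :=
    { toFun := fun m => ⟨fun x => (z m.1 x : k), fun i j l => by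
          have : z m.1 (i, j, l) = z m.1 (j, i, l) :=
            inj (by rw [← hz _ m.2, ← hz _ m.2, m.1.2.1])
          simp only [this], fun j => by
          have : ∑ i, z m.1 (i, j, i) = 0 := inj (by
            push_cast
            simp only [Finset.sum_mul, ← hz _ m.2, zero_mul]
            exact m.1.2.2 j)
          rw [← Int.cast_sum, this, Int.cast_zero]⟩
      map_zero' := by
        ext x
        have : z 0 x = 0 := inj (by rw [← hz _ M.zero_mem]; simp)
        simp [this]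
      map_add' := fun a b => by
        ext x
        have : z (a.1 + b.1) x = z a.1 x + z b.1 x := inj (by
          rw [← hz _ (M.add_mem a.2 b.2), Int.cast_add, add_mul, ← hz _ a.2, ← hz _ b.2]
          rfl)
        simp [this] }
  have hφ : ∀ (g : SL(3, ℤ)) (m : M), φ0 ⟨rhoZ ℚ g m.1, hS g _ m.2⟩ = rhoZ k g (φ0 m) := by
    intro g m
    ext x
    have : z (rhoZ ℚ g m.1) x = ∑ y, Kz g.1 (g⁻¹ : SL(3, ℤ)).1 x y * z m.1 y := inj (by
      rw [← hz _ (hS g _ m.2), rhoZ_apply]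
      push_cast
      simp only [Finset.sum_mul, mul_assoc, ← hz _ m.2])
    rw [rhoZ_apply]
    show (z (rhoZ ℚ g m.1) x : k) = ∑ y, _ * (z m.1 y : k)
    rw [this]
    push_cast
    rfl
  let e0 : (k ⊗[ℤ] M) →ₗ[k] W k := LinearMap.liftBaseChange k φ0.toIntLinearMap
  have he : ∀ g m, e0 (latRep k M hS g m) = rhoZ k g (e0 m) := by
    intro g m
    induction m using TensorProduct.induction_on with
    | zero => simp
    | add a b ha hb => simp only [map_add, ha, hb]
    | tmul c m =>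
      show e0 (c ⊗ₜ ⟨rhoZ ℚ g m.1, hS g _ m.2⟩) = _
      simp only [e0, LinearMap.liftBaseChange_tmul, map_smul, AddMonoidHom.coe_toIntLinearMap, hφ]
  have hsurj : Function.Surjective e0 := by
    rw [← LinearMap.range_eq_top]
    refine eq_top_of_stable h2 h3 _ ?_ ?_
    · rintro g _ ⟨m, rfl⟩
      exact ⟨_, he g m⟩
    · rw [Submodule.ne_bot_iff]
      refine ⟨_, ⟨1 ⊗ₜ ⟨m0, hm0⟩, rfl⟩, fun h => hp0 ?_⟩
      simp only [e0, LinearMap.liftBaseChange_tmul, one_smul,
        AddMonoidHom.coe_toIntLinearMap] at h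
      have h6 : (z m0 x0 : k) = 0 := congrFun (congrArg Subtype.val h) x0
      have h7 : z m0 x0 = z0 := inj (by rw [← hz _ hm0, hz0])
      rw [h7] at h6
      exact (CharP.intCast_eq_zero_iff k p z0).1 h6
  have hrk : Module.finrank k (k ⊗[ℤ] M) = Module.finrank k (W k) := by
    rw [Module.finrank_baseChange, finrank_W, ← finrank_W ℚ, Module.finrank,
      Submodule.IsLattice.rank' ℚ M]
    rfl
  exact ⟨LinearEquiv.ofBijective e0
    ⟨(LinearMap.injective_iff_surjective_of_finrank_eq_finrank hrk).2 hsurj, hsurj⟩, he⟩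

end Pool.Agent.H101Z.MP
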